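import Pool.Agent.R306.One.SqP
import Pool.Agent.Results.MP_73869e_nt.LawOfLargeNumbers

/-!
# Almost primes just above the squares of `⌊b_n α ^ (a_n)⌋`, for almost all `α`

For an integer `m` let `X ≤ m < 2 X`, where `X` is a power of two.  A number `q` is good (for `m`) if it has at
most `2 r` prime factors, all larger than `X ^ (1 / r)`; `V` is the product of `1 - 1 / p` over the primes
`p ≤ X ^ (1 / r)`, and `t V` is the expected number of the good `q` in `(m ^ 2, m ^ 2 + t]`.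

Let `a_n ≥ 1` and `b_n ≥ 1` be real numbers such that `s_n = a_n + log b_n` is nondecreasing, tends to infinity
and `s_{n+1} / s_n` is bounded.  We show: for every `ε > 0` there is `r0` such that for almost all `α > 1`, for all
`r ≥ r0`, the number of the good `q` in `(m ^ 2, m ^ 2 + (log m / log 2) ^ 2]` is `(1 + O(ε)) t V` for all `m = m_n`,
`m_n = ⌊b_n α ^ (a_n)⌋`, but for a set of `n` of upper density at most `ε`, with respect to the weights
`log (s_{n+1} / s_n)`.  The same holds for shorter and for longer lengths: for all lengths `t` between `L` and `2 L`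
at the same time, where `L = L(⌊log m / log 2⌋)` may be as small as a constant times `log m` and as large as
`X ^ (1 / 10)`.  At the critical lengths there is a Poisson law: for `x > 0` the numbers of the good `q` in
`(m ^ 2, m ^ 2 + x / V]`, `m = m_n`, have the Poisson distribution with mean `x`, up to `ε`.

For `m_n = ⌊α ^ (n + 1)⌋` the weights are `log (1 + 1 / (n + 1))`, so this is a statement on the logarithmic
density of `n`; for `a_n = 2 ^ n`, `b_n = 1` all weights are equal, and it is one on the natural density.  The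
numbers `m_n` form a very thin set, about which a law for almost all `m` says nothing.

Proof.  The law of large numbers in short windows (`LawOfLargeNumbers`) shows that the indicator function `g` of the
exceptional `m` has mean at most `ε` in all windows `[R, R + H]` with `R ^ (3/4) ≤ H ≤ R`; in the same way the binomial
moments of that result give the Poisson law in all these windows.  With `y = log α`, the
function `g(m_n)` of `y` is the sum of its average over the window `[y, y + δ_n]`, `δ_n = exp(-κ s_n)`, and of a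
function `D_n`; since the variation of `D_n` is at most `exp(C s_n)` and `D_m` has small means at the scale `δ_m`,
the functions `D_n` and `D_m` are almost orthogonal if `s_m` is larger than a constant times `s_n`.  So the second
moment of `∑ w_n D_n` is `O(∑ w_n)`, and almost everywhere convergence follows.
-/

set_option autoImplicit false

open MeasureTheory Filter Topology Set Finset

namespace Pool.Agent.Results.MP_73869e_nt.LawAlongAlmostAll

/-- `q` has at most `2 r` prime factors (with multiplicity), all larger than `X ^ (1 / r)` -/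
def Good (r X q : ℕ) : Prop :=
  q.primeFactorsList.length ≤ 2 * r ∧ ∀ p : ℕ, p.Prime → p ∣ q → (X : ℝ) ^ (1 / (r : ℝ)) < (p : ℝ)

open Classical in
/-- the number of the good integers `q` with `m ^ 2 < q ≤ m ^ 2 + t` -/
noncomputable def N (r X m t : ℕ) : ℕ := ((Finset.Ioc (m ^ 2) (m ^ 2 + t)).filter (fun q => Good r X q)).card

/-- the product of `1 - 1 / p` over the primes `p ≤ X ^ (1 / r)` -/
noncomputable def V (r X : ℕ) : ℝ :=
  ∏ p ∈ (Finset.Icc 1 ⌊(X : ℝ) ^ (1 / (r : ℝ))⌋₊).filter Nat.Prime, (1 - 1 / (p : ℝ))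

/-- the largest power of two that is at most `m` -/
def X (m : ℕ) : ℕ := 2 ^ Nat.log 2 m

/-- the number of the good integers in `(m ^ 2, m ^ 2 + t]` differs from the expected number `t V` by more
than `ε t V` -/
def Off (r : ℕ) (ε : ℝ) (m t : ℕ) : Prop :=
  ε * (t * V r (X m)) < |(N r (X m) m t : ℝ) - t * V r (X m)|

/-- the length `⌊(log m / log 2) ^ 2⌋` of the question -/
noncomputable def len (m : ℕ) : ℕ := ⌊(Real.logb 2 m) ^ 2⌋₊

/-- the weight `log (s_{n+1} / s_n)`, where `s_n = a_n + log b_n` -/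
noncomputable def w (a b : ℕ → ℝ) (n : ℕ) : ℝ :=
  Real.log (a (n + 1) + Real.log (b (n + 1))) - Real.log (a n + Real.log (b n))

open Pool.Agent.R306.One

lemma V_nonneg (r X : ℕ) : 0 ≤ V r X := Pool.Agent.Y862.SQ.V1_nonneg _

/-- the exceptional numbers -/
def Ex (r : ℕ) (ε : ℝ) (L : ℕ → ℕ) : Set ℕ :=
  {m : ℕ | ∃ t, L (Nat.log 2 m) ≤ t ∧ t ≤ 2 * L (Nat.log 2 m) ∧ Off r ε m t}

lemma ds (ε : ℝ) (hε : 0 < ε) : ∃ (K : ℝ) (r0 : ℕ), ∀ L : ℕ → ℕ,
    (∀ᶠ j : ℕ in atTop, K * j ≤ L j ∧ (L j) ^ 10 ≤ 2 ^ j) → ∀ r, r0 ≤ r →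
      DyadicSmall (ε / 4) (Ex r ε L) := by
  classical
  obtain ⟨K₀, r0, h⟩ := LawOfLargeNumbers.result (1 / 2) (ε / 4) (by norm_num) (by positivity)
  obtain ⟨c, C, hc, hC, hV⟩ := Pool.Agent.Y810.SQ.V1_bounds
  refine ⟨max K₀ 0 / c, max r0 1, fun L hL r hr => ?_⟩
  have hr0 : r0 ≤ r := (le_max_left _ _).trans hr
  have hr1 : 1 ≤ r := (le_max_right _ _).trans hr
  obtain ⟨X0, hX0⟩ := h r hr0
  obtain ⟨j1, hj1⟩ := eventually_atTop.1 hL
  refine ⟨max (max j1 X0) r, fun j hj Z Y hY h1 h2 => ?_⟩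
  have hjj1 : j1 ≤ j := (le_max_left _ _).trans ((le_max_left _ _).trans hj)
  have hjX : X0 ≤ j := (le_max_right _ _).trans ((le_max_left _ _).trans hj)
  have hjr : r ≤ j := (le_max_right _ _).trans hj
  obtain ⟨hK, hL10⟩ := hj1 j hjj1
  have hj2 : j < 2 ^ j := Nat.lt_two_pow_self
  have hcast : ((2 ^ j : ℕ) : ℝ) = (2:ℝ) ^ j := by push_cast; ring
  have hjpos : (0:ℝ) < j := by exact_mod_cast (by omega : 0 < j)
  have hrpos : (0:ℝ) < r := by exact_mod_cast (by omega : 0 < r)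
  -- the lower bound for V
  have hVlow : c / j ≤ V r (2 ^ j) := by
    have hVeq : V r (2 ^ j) = Pool.Agent.Y862.SQ.V1 ⌊((2 ^ j : ℕ) : ℝ) ^ (1 / (r : ℝ))⌋₊ := rfl
    have hpe : ((2 ^ j : ℕ) : ℝ) ^ (1 / (r : ℝ)) = (2:ℝ) ^ ((j : ℝ) / r) := by
      rw [hcast, ← Real.rpow_natCast, ← Real.rpow_mul (by norm_num)]
      congr 1
      ring
    have hp2 : (2:ℝ) ≤ ((2 ^ j : ℕ) : ℝ) ^ (1 / (r : ℝ)) := by
      rw [hpe]
      calc (2:ℝ) = (2:ℝ) ^ (1:ℝ) := (Real.rpow_one _).symm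
        _ ≤ (2:ℝ) ^ ((j : ℝ) / r) := by
          apply Real.rpow_le_rpow_of_exponent_le (by norm_num)
          rw [le_div_iff₀ hrpos, one_mul]
          exact_mod_cast hjr
    obtain ⟨y, hy⟩ : ∃ y : ℕ, y = ⌊((2 ^ j : ℕ) : ℝ) ^ (1 / (r : ℝ))⌋₊ := ⟨_, rfl⟩
    have hy2 : 2 ≤ y := by
      rw [hy]
      exact Nat.le_floor (by exact_mod_cast hp2)
    have hyle : (y : ℝ) ≤ (2:ℝ) ^ ((j : ℝ) / r) := by
      rw [hy, ← hpe]
      exact Nat.floor_le (by positivity)
    have hypos : (1:ℝ) < y := by exact_mod_cast (by omega : 1 < y)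
    have hlogy : Real.log y ≤ j := by
      have h3 := Real.log_le_log (by linarith) hyle
      rw [Real.log_rpow (by norm_num)] at h3
      have h4 : (j : ℝ) / r ≤ j := div_le_self hjpos.le (by exact_mod_cast hr1)
      have h5 : Real.log 2 ≤ 1 := by
        have := Real.log_two_lt_d9
        linarith
      have h6 : 0 ≤ Real.log 2 := Real.log_nonneg (by norm_num)
      calc Real.log y ≤ (j : ℝ) / r * Real.log 2 := h3
        _ ≤ (j : ℝ) * 1 := mul_le_mul h4 h5 h6 hjpos.le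
        _ = j := mul_one _
    rw [hVeq, ← hy]
    refine le_trans ?_ (hV y hy2).1
    exact div_le_div_of_nonneg_left hc.le (Real.log_pos hypos) hlogy
  have hKV : K₀ ≤ L j * V r (2 ^ j) := by
    calc K₀ ≤ max K₀ 0 := le_max_left _ _
      _ = (max K₀ 0 / c * j) * (c / j) := by field_simp
      _ ≤ L j * V r (2 ^ j) := mul_le_mul hK hVlow (by positivity) (by positivity)
  have hT5 : ((L j : ℕ) : ℝ) ^ 5 ≤ ((2 ^ j : ℕ) : ℝ) ^ (1 / 2 : ℝ) := by
    rw [← Real.sqrt_eq_rpow]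
    apply Real.le_sqrt_of_sq_le
    rw [← pow_mul]
    exact_mod_cast hL10
  have hXY : ((2 ^ j : ℕ) : ℝ) ^ (1 / 2 : ℝ) ≤ Y := by
    rw [← Real.sqrt_eq_rpow, hcast]
    exact hY
  have hmain := hX0 (2 ^ j) (by omega) Z Y hXY (by rw [pow_succ] at h2; omega) (L j) hKV hT5
  refine le_trans ?_ hmain
  have hsub : (Finset.Ioc Z (Z + Y)).filter (fun n => n ∈ Ex r ε L) ⊆
      (Finset.Ioc Z (Z + Y)).filter (fun n => LawOfLargeNumbers.Bad r (2 ^ j) (L j) (ε / 4) n) := by
    intro n hn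
    rw [Finset.mem_filter, Finset.mem_Ioc] at hn ⊢
    refine ⟨hn.1, ?_⟩
    have hlog : Nat.log 2 n = j := by
      rw [Nat.log_eq_iff (Or.inr ⟨by norm_num, by omega⟩)]
      omega
    obtain ⟨t, ht1, ht2, ht3⟩ := hn.2
    rw [hlog] at ht1 ht2
    unfold Off X at ht3
    rw [hlog] at ht3
    refine ⟨t, ht1, ht2, ?_⟩
    have h3 : 0 ≤ (t : ℝ) * V r (2 ^ j) := mul_nonneg (Nat.cast_nonneg t) (V_nonneg _ _)
    have h4 : ε / 4 * (t * V r (2 ^ j)) ≤ ε * (t * V r (2 ^ j)) := by nlinarith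
    exact lt_of_le_of_lt h4 ht3
  exact_mod_cast Finset.card_le_card hsub

lemma ds_mono {ε : ℝ} {E F : Set ℕ} (h : DyadicSmall ε E) (hEF : ∀ m, 8 ≤ m → m ∈ F → m ∈ E) :
    DyadicSmall ε F := by
  classical
  obtain ⟨j0, hj0⟩ := h
  refine ⟨max j0 3, fun j hj Z Y hY h1 h2 => ?_⟩
  refine le_trans ?_ (hj0 j ((le_max_left _ _).trans hj) Z Y hY h1 h2)
  have h8 : 2 ^ 3 ≤ 2 ^ j := Nat.pow_le_pow_right (by norm_num) ((le_max_right _ _).trans hj)
  have hsub : (Finset.Ioc Z (Z + Y)).filter (fun n => n ∈ F) ⊆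
      (Finset.Ioc Z (Z + Y)).filter (fun n => n ∈ E) := by
    intro n hn
    rw [Finset.mem_filter, Finset.mem_Ioc] at hn ⊢
    exact ⟨hn.1, hEF n (by omega) hn.2⟩
  exact_mod_cast Finset.card_le_card hsub

/-- the length of the question -/
lemma len_bounds (m : ℕ) (hm : 8 ≤ m) :
    (Nat.log 2 m) ^ 2 ≤ len m ∧ len m ≤ 2 * (Nat.log 2 m) ^ 2 := by
  obtain ⟨j, hj⟩ : ∃ j, j = Nat.log 2 m := ⟨_, rfl⟩
  have hj3 : 3 ≤ j := by
    rw [hj]
    exact (Nat.le_log_iff_pow_le (by norm_num) (by omega)).2 (by omega)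
  have h1 : 2 ^ j ≤ m := by rw [hj]; exact Nat.pow_log_le_self 2 (by omega)
  have h2 : m < 2 ^ (j + 1) := by rw [hj]; exact Nat.lt_pow_succ_log_self (by norm_num) m
  have hm0 : (0:ℝ) < m := by exact_mod_cast (by omega : 0 < m)
  have h3 : (j : ℝ) ≤ Real.logb 2 m := by
    rw [Real.le_logb_iff_rpow_le (by norm_num) hm0, Real.rpow_natCast]
    exact_mod_cast h1
  have h4 : Real.logb 2 m < (j : ℝ) + 1 := by
    rw [Real.logb_lt_iff_lt_rpow (by norm_num) hm0]
    have : (2:ℝ) ^ ((j : ℝ) + 1) = (2:ℝ) ^ (j + 1) := by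
      rw [← Real.rpow_natCast]
      push_cast
      rfl
    rw [this]
    exact_mod_cast h2
  have hj0 : (0:ℝ) ≤ j := Nat.cast_nonneg j
  rw [← hj]
  constructor
  · apply Nat.le_floor
    push_cast
    exact pow_le_pow_left₀ hj0 h3 2
  · have h5 : (len m : ℝ) ≤ (Real.logb 2 m) ^ 2 := Nat.floor_le (by positivity)
    have h6 : (Real.logb 2 m) ^ 2 ≤ ((j : ℝ) + 1) ^ 2 := pow_le_pow_left₀ (by linarith) h4.le 2
    have h7 : (len m : ℝ) ≤ ((2 * j ^ 2 : ℕ) : ℝ) := by
      push_cast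
      have h8 : (3:ℝ) ≤ j := by exact_mod_cast hj3
      nlinarith
    exact_mod_cast h7

lemma Nsq_eq {r j m t : ℕ} (hr : 1 ≤ r) (h5 : 5 < ((2 ^ j : ℕ) : ℝ) ^ (1 / (r : ℝ)))
    (hm : m < 2 * 2 ^ j) (ht : t ≤ 2 ^ j) : N r (2 ^ j) m t = Pool.Agent.Y862.SQ.Ns (yy r j) t m := by
  have h0 : 1 ≤ 2 ^ j := Nat.one_le_two_pow
  refine LawOfLargeNumbers.N_eq r (2 ^ j) m t hr h0 h5 ?_
  have h1 : m ^ 2 ≤ (2 * 2 ^ j) ^ 2 := Nat.pow_le_pow_left hm.le 2
  nlinarith

lemma large {r : ℕ} (hr : 1 ≤ r) : ∀ᶠ j : ℕ in atTop, 5 < ((2 ^ j : ℕ) : ℝ) ^ (1 / (r : ℝ)) := by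
  have hr0 : (0:ℝ) < r := by exact_mod_cast (by omega : 0 < r)
  have h1 : Tendsto (fun j : ℕ => ((2 ^ j : ℕ) : ℝ)) atTop atTop := by
    simp only [cast_two_pow]
    exact tendsto_pow_atTop_atTop_of_one_lt one_lt_two
  exact ((tendsto_rpow_atTop (by positivity)).comp h1).eventually_gt_atTop 5

lemma ds_mono2 {ε : ℝ} {E F : Set ℕ} (h : DyadicSmall ε E) (j1 : ℕ)
    (hEF : ∀ m, 1 ≤ m → j1 ≤ Nat.log 2 m → m ∈ F → m ∈ E) : DyadicSmall ε F := by
  classical
  obtain ⟨j0, hj0⟩ := h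
  refine ⟨max j0 j1, fun j hj Z Y hY h1 h2 => ?_⟩
  refine le_trans ?_ (hj0 j ((le_max_left _ _).trans hj) Z Y hY h1 h2)
  have hsub : (Finset.Ioc Z (Z + Y)).filter (fun n => n ∈ F) ⊆
      (Finset.Ioc Z (Z + Y)).filter (fun n => n ∈ E) := by
    intro n hn
    rw [Finset.mem_filter] at hn ⊢
    have hlog := log_of_mem h1 h2 hn.1
    have h3 := Finset.mem_Ioc.1 hn.1
    exact ⟨hn.1, hEF n (by omega) (by rw [hlog]; exact (le_max_right _ _).trans hj) hn.2⟩
  exact_mod_cast Finset.card_le_card (by convert hsub)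

/-- the probability of `A` for the Poisson distribution with mean `x` -/
noncomputable def poisson (x : ℝ) (A : Finset ℕ) : ℝ := ∑ k ∈ A, Real.exp (-x) * x ^ k / k.factorial

lemma poisson_nonneg {x : ℝ} (hx : 0 ≤ x) (A : Finset ℕ) : 0 ≤ poisson x A := by
  unfold poisson
  positivity

lemma poisson_le_one {x : ℝ} (hx : 0 ≤ x) (A : Finset ℕ) : poisson x A ≤ 1 := by
  obtain ⟨n, hn⟩ : ∃ n, A ⊆ Finset.range n := ⟨A.sup id + 1, fun a ha => by
    rw [Finset.mem_range]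
    have : id a ≤ A.sup id := Finset.le_sup ha
    exact Nat.lt_succ_of_le this⟩
  have h1 : poisson x A ≤ ∑ k ∈ Finset.range n, Real.exp (-x) * x ^ k / k.factorial := by
    unfold poisson
    exact Finset.sum_le_sum_of_subset_of_nonneg hn fun _ _ _ => by positivity
  have h2 := Real.sum_le_exp_of_nonneg hx n
  have h3 : ∑ k ∈ Finset.range n, Real.exp (-x) * x ^ k / k.factorial =
      Real.exp (-x) * ∑ k ∈ Finset.range n, x ^ k / k.factorial := by
    rw [Finset.mul_sum]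
    exact Finset.sum_congr rfl fun k _ => by ring
  calc poisson x A ≤ _ := h1
    _ = Real.exp (-x) * ∑ k ∈ Finset.range n, x ^ k / k.factorial := h3
    _ ≤ Real.exp (-x) * Real.exp x := mul_le_mul_of_nonneg_left h2 (Real.exp_pos _).le
    _ = 1 := by rw [← Real.exp_add]; simp

open Classical in
theorem result :
    -- the law of large numbers
    (∀ ε : ℝ, 0 < ε → ∃ (K : ℝ) (r0 : ℕ), ∀ a b : ℕ → ℝ, (∀ n, 1 ≤ a n) → (∀ n, 1 ≤ b n) →
      Monotone (fun n => a n + Real.log (b n)) → Tendsto (fun n => a n + Real.log (b n)) atTop atTop →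
      (∃ C : ℝ, ∀ n, a (n + 1) + Real.log (b (n + 1)) ≤ C * (a n + Real.log (b n))) →
      -- the lengths of the question
      (∀ᵐ α : ℝ, 1 < α → ∀ r : ℕ, r0 ≤ r → ∀ᶠ M in atTop,
        (∑ n ∈ Finset.range M, if Off r ε ⌊b n * α ^ (a n)⌋₊ (len ⌊b n * α ^ (a n)⌋₊) then w a b n
          else 0) ≤ ε * ∑ n ∈ Finset.range M, w a b n) ∧
      -- other lengths
      ∀ L : ℕ → ℕ, (∀ᶠ j : ℕ in atTop, K * j ≤ L j ∧ (L j) ^ 10 ≤ 2 ^ j) →
        ∀ᵐ α : ℝ, 1 < α → ∀ r : ℕ, r0 ≤ r → ∀ᶠ M in atTop,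
          (∑ n ∈ Finset.range M, if ∃ t, L (Nat.log 2 ⌊b n * α ^ (a n)⌋₊) ≤ t ∧
              t ≤ 2 * L (Nat.log 2 ⌊b n * α ^ (a n)⌋₊) ∧ Off r ε ⌊b n * α ^ (a n)⌋₊ t then w a b n
            else 0) ≤ ε * ∑ n ∈ Finset.range M, w a b n) ∧
    -- the Poisson law
    ∀ x ε : ℝ, 0 < x → 0 < ε → ∃ r0 : ℕ, ∀ a b : ℕ → ℝ, (∀ n, 1 ≤ a n) → (∀ n, 1 ≤ b n) →
      Monotone (fun n => a n + Real.log (b n)) → Tendsto (fun n => a n + Real.log (b n)) atTop atTop →
      (∃ C : ℝ, ∀ n, a (n + 1) + Real.log (b (n + 1)) ≤ C * (a n + Real.log (b n))) →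
      ∀ᵐ α : ℝ, 1 < α → ∀ r : ℕ, r0 ≤ r → ∀ A : Finset ℕ, ∀ᶠ M in atTop,
        |(∑ n ∈ Finset.range M, if N r (X ⌊b n * α ^ (a n)⌋₊) ⌊b n * α ^ (a n)⌋₊
            ⌊x / V r (X ⌊b n * α ^ (a n)⌋₊)⌋₊ ∈ A then w a b n else 0) -
          poisson x A * ∑ n ∈ Finset.range M, w a b n| ≤ ε * ∑ n ∈ Finset.range M, w a b n := by
  constructor
  · intro ε hε
    obtain ⟨K, r0, h⟩ := ds ε hε
    refine ⟨K, r0, fun a b ha hb hmono hinf hC => ?_⟩
    have gen : ∀ E : ℕ → Set ℕ, (∀ r, r0 ≤ r → DyadicSmall (ε / 4) (E r)) →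
        ∀ᵐ α : ℝ, 1 < α → ∀ r : ℕ, r0 ≤ r → ∀ᶠ M in atTop,
          (∑ n ∈ Finset.range M, if ⌊b n * α ^ (a n)⌋₊ ∈ E r then w a b n else 0) ≤
            ε * ∑ n ∈ Finset.range M, w a b n := by
      intro E hE
      have h1 : ∀ r : ℕ, ∀ᵐ α : ℝ, r0 ≤ r → 1 < α → ∀ᶠ M in atTop,
          (∑ n ∈ Finset.range M, if ⌊b n * α ^ (a n)⌋₊ ∈ E r then w a b n else 0) ≤
            ε * ∑ n ∈ Finset.range M, w a b n := by
        intro r
        by_cases hr : r0 ≤ r
        · have h2 := ae_nat (by positivity) (hE r hr) ha hb hmono hinf hC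
          filter_upwards [h2] with α hα _ hα1
          have h3 := hα hα1 (ε / 2) (by positivity)
          have e : 2 * (ε / 4) + ε / 2 = ε := by ring
          rw [e] at h3
          filter_upwards [h3] with M hM
          exact hM
        · exact Eventually.of_forall fun α hr' => absurd hr' hr
      filter_upwards [ae_all_iff.2 h1] with α hα hα1 r hr
      exact hα r hr hα1
    constructor
    · refine gen (fun r => {m : ℕ | Off r ε m (len m)}) fun r hr => ?_
      refine ds_mono (E := Ex r ε (fun j => j ^ 2)) (h (fun j => j ^ 2) ?_ r hr) ?_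
      · have h1 : ∀ᶠ j : ℕ in atTop, K ≤ j := by
          obtain ⟨k, hk⟩ := exists_nat_ge K
          filter_upwards [eventually_ge_atTop k] with j hj
          exact hk.trans (by exact_mod_cast hj)
        have h2 : ∀ᶠ j : ℕ in atTop, (j ^ 2) ^ 10 ≤ 2 ^ j := by
          have h3 : Tendsto (fun j : ℕ => (j : ℝ) ^ 20 / 2 ^ j) atTop (𝓝 0) :=
            tendsto_pow_const_div_const_pow_of_one_lt 20 (by norm_num)
          filter_upwards [h3.eventually_lt_const one_pos] with j hj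
          rw [div_lt_one (by positivity)] at hj
          rw [← pow_mul]
          exact_mod_cast hj.le
        filter_upwards [h1, h2] with j hj1 hj2
        refine ⟨?_, hj2⟩
        push_cast
        have : (0:ℝ) ≤ j := Nat.cast_nonneg j
        nlinarith
      · intro m hm hmF
        obtain ⟨h1, h2⟩ := len_bounds m hm
        exact ⟨len m, h1, h2, hmF⟩
    · intro L hL
      exact gen (fun r => Ex r ε L) fun r hr => h L hL r hr
  · intro x ε hx hε
    obtain ⟨r0, h⟩ := sq_pois x (ε / 4) hx (by positivity)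
    refine ⟨max r0 1, fun a b ha hb hmono hinf hC => ?_⟩
    have h1 : ∀ r : ℕ, ∀ A : Finset ℕ, ∀ᵐ α : ℝ, max r0 1 ≤ r → 1 < α → ∀ᶠ M in atTop,
        |(∑ n ∈ Finset.range M, if N r (X ⌊b n * α ^ (a n)⌋₊) ⌊b n * α ^ (a n)⌋₊
            ⌊x / V r (X ⌊b n * α ^ (a n)⌋₊)⌋₊ ∈ A then w a b n else 0) -
          poisson x A * ∑ n ∈ Finset.range M, w a b n| ≤ ε * ∑ n ∈ Finset.range M, w a b n := by
      intro r A
      by_cases hr : max r0 1 ≤ r
      · have hr1 : 1 ≤ r := (le_max_right _ _).trans hr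
        obtain ⟨d1, d2⟩ := h r ((le_max_left _ _).trans hr) A
        obtain ⟨j1, hj1⟩ := eventually_atTop.1 ((tt_len x hx hr1).and (large hr1))
        obtain ⟨F, hF⟩ : ∃ F : Set ℕ, F = {m : ℕ | N r (X m) m ⌊x / V r (X m)⌋₊ ∈ A} := ⟨_, rfl⟩
        have hEF : ∀ m, 1 ≤ m → j1 ≤ Nat.log 2 m → (m ∈ F ↔ m ∈ ES x r A) := by
          intro m hm hjm
          obtain ⟨g1, g2⟩ := hj1 _ hjm
          have hlt : m < 2 ^ (Nat.log 2 m + 1) := Nat.lt_pow_succ_log_self (by norm_num) m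
          have e : ⌊x / V r (X m)⌋₊ = TT x r (Nat.log 2 m) := rfl
          rw [hF, Set.mem_ofPred_eq, e]
          unfold X
          rw [Nsq_eq hr1 g2 (by rw [pow_succ] at hlt; omega) g1]
          rfl
        have d1' : DyadicSmall (poisson x A + ε / 4) F :=
          ds_mono2 d1 j1 fun m hm hjm hmF => (hEF m hm hjm).1 hmF
        have d2' : DyadicSmall (1 - poisson x A + ε / 4) Fᶜ :=
          ds_mono2 d2 j1 fun m hm hjm hmF => fun hmE => hmF ((hEF m hm hjm).2 hmE)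
        have h2 := ae_near (by positivity) (poisson_nonneg hx.le A) (poisson_le_one hx.le A) d1' d2'
          ha hb hmono hinf hC
        filter_upwards [h2] with α hα _ hα1
        have h3 := hα hα1 (ε / 2) (by positivity)
        have e : 2 * (ε / 4) + ε / 2 = ε := by ring
        rw [e] at h3
        filter_upwards [h3] with M hM
        have e2 : (∑ n ∈ Finset.range M, if N r (X ⌊b n * α ^ (a n)⌋₊) ⌊b n * α ^ (a n)⌋₊
            ⌊x / V r (X ⌊b n * α ^ (a n)⌋₊)⌋₊ ∈ A then w a b n else 0) =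
            ∑ n ∈ Finset.range M, if ⌊b n * α ^ (a n)⌋₊ ∈ F then wt a b n else 0 := by
          refine Finset.sum_congr rfl fun n _ => ?_
          have hiff : ⌊b n * α ^ (a n)⌋₊ ∈ F ↔ N r (X ⌊b n * α ^ (a n)⌋₊) ⌊b n * α ^ (a n)⌋₊
              ⌊x / V r (X ⌊b n * α ^ (a n)⌋₊)⌋₊ ∈ A := by
            rw [hF]
            rfl
          by_cases hnF : ⌊b n * α ^ (a n)⌋₊ ∈ F
          · rw [if_pos hnF, if_pos (hiff.1 hnF)]
            rfl
          · rw [if_neg hnF, if_neg (fun h => hnF (hiff.2 h))]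
        rw [e2]
        exact hM
      · exact Eventually.of_forall fun α hr' => absurd hr' hr
    have h2 : ∀ᵐ α : ℝ, ∀ r : ℕ, ∀ A : Finset ℕ, max r0 1 ≤ r → 1 < α → ∀ᶠ M in atTop,
        |(∑ n ∈ Finset.range M, if N r (X ⌊b n * α ^ (a n)⌋₊) ⌊b n * α ^ (a n)⌋₊
            ⌊x / V r (X ⌊b n * α ^ (a n)⌋₊)⌋₊ ∈ A then w a b n else 0) -
          poisson x A * ∑ n ∈ Finset.range M, w a b n| ≤ ε * ∑ n ∈ Finset.range M, w a b n := by
      rw [ae_all_iff]
      intro r
      rw [ae_all_iff]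
      exact h1 r
    filter_upwards [h2] with α hα hα1 r hr A
    exact hα r A hr hα1

end Pool.Agent.Results.MP_73869e_nt.LawAlongAlmostAll
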