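import Pool.Agent.R526.LS.Fin
import Pool.Agent.R526.LS.Up
import Pool.Agent.R526.TP.Num

set_option autoImplicit false

/-!
# Intervals after squares and sieve-preserving random moves of the primes

Author: helper526.

Every large prime `p` is moved to a uniformly random one of the integers of `(p, p + W(p)]` that have no prime factor
`≤ Z(p)`, independently of the others. Here `W(p) ~ p / (log p)^A` and `Z(p) = (log p)^(β + o(1))`, `0 < β ≤ 1`; for
instance `Z(p) = log p`, the level of the sieve in Granville's modification of Cramér's model. So the moves respect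
the divisibility by small primes and all averages of the primes over long intervals. Let `𝒮` be the resulting random
set. We ask for elements of `𝒮` in `(n², n² + (log₂ n)²]`. Note that `(log₂ n)² = 2.0813... (log n)²`.

(1) With Buchstab's function `ω`, almost surely there are infinitely many `n` (one in each interval `(N, 4 N]`) such
that `(n², n² + (C - ε) (log n)²]` is free of elements of `𝒮`, where `C = 2 e^(-γ) / ω(2/β)`.

(2) For `β = 1` we have `C = 4 e^(-γ) = 2.2458... > 2.0813...`; so almost surely there are infinitely many `n` for which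
`(n², n² + (log₂ n)²]` contains no element of `𝒮`: the answer to Q1 is NEGATIVE for the moved primes.

(3) On the other hand there is `β₀ > 0` such that for `0 < β ≤ β₀` almost surely for all large `n` the interval
`(n², n² + (log₂ n)²]` contains an element of `𝒮`. So the answer to Q1 in such models depends on the level of the
sieve, since the numbers `2` (the constant in models which ignore small primes) and `2.08...` are so close to each
other.

Proof. (1) Let `n` be a multiple of all the primes `≤ z = (log n)^θ / 4`, `θ < β`; there are `X^(1 - o(1))` such `n ≤ X`.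
Then the possible destinations in `(n², n² + c (log n)²]` are among the `n² + i` with `i` free of prime factors `≤ z`,
and their number is given by Buchstab's asymptotic formula; the number of all the destinations of `p` is given by
the fundamental lemma of the sieve and Mertens' theorem, the number of the relevant `p` by the prime number
theorem with error term. So the window is avoided with probability `n^(-c e^γ ω(2/θ) / 2 + o(1))`; these events are
negatively correlated; second moments. (3) By the fundamental lemma the number of destinations in every window is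
as expected, and the sum of the probabilities converges.
-/

open MeasureTheory ProbabilityTheory Filter Topology

namespace Pool.Agent.Results.MP_73869e_nt.SquaresAndMovedPrimes

/-- `ω` is Buchstab's function: it is continuous on `[1, ∞)`, `u ω(u) = 1` for `1 ≤ u ≤ 2` and
`u ω(u) = 1 + ∫_1^(u-1) ω` for `u ≥ 2` (these conditions determine `ω` on `[1, ∞)`). -/
def IsBuchstab (ω : ℝ → ℝ) : Prop :=
  ContinuousOn ω (Set.Ici 1) ∧ (∀ u, 1 ≤ u → u ≤ 2 → u * ω u = 1) ∧
    ∀ u, 2 ≤ u → u * ω u = 1 + ∫ s in (1 : ℝ)..(u - 1), ω s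

/-- the possible destinations of `p`: the integers of `(p, p + W p]` without prime factors `≤ Z p` -/
def Dest (Z W : ℕ → ℕ) (p : ℕ) : Set ℕ :=
  {m : ℕ | p < m ∧ m ≤ p + W p ∧ ∀ q : ℕ, q.Prime → q ∣ m → Z p < q}

/-- `W p ~ p / (log p)^A`, `Z p = (log p)^(β + o(1))`, the `ξ p` are independent, and for all large primes `p` the
random variable `ξ p` is uniformly distributed on the set of the destinations of `p`. -/
def Moved (β : ℝ) (A : ℕ) (Z W : ℕ → ℕ) (Ω : Type) [MeasurableSpace Ω] (μ : Measure Ω) (ξ : ℕ → Ω → ℕ) : Prop :=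
  Tendsto (fun p : ℕ => Real.log (Z p) / Real.log (Real.log p)) atTop (𝓝 β) ∧
  Tendsto (fun p : ℕ => (W p : ℝ) / ((p : ℝ) / (Real.log p) ^ A)) atTop (𝓝 1) ∧
  (∀ p, Measurable (ξ p)) ∧ iIndepFun ξ μ ∧ ∃ p₀ : ℕ, ∀ p : ℕ, p.Prime → p₀ ≤ p →
    (∀ᵐ w ∂μ, ξ p w ∈ Dest Z W p) ∧ ∀ m ∈ Dest Z W p, μ.real {w | ξ p w = m} = 1 / (Dest Z W p).ncard

/-- the set `𝒮` of all `ξ p`, `p` prime -/
def S {Ω : Type} (ξ : ℕ → Ω → ℕ) (w : Ω) : Set ℕ := {m : ℕ | ∃ p : ℕ, p.Prime ∧ ξ p w = m}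

theorem law {Z W : ℕ → ℕ} {Ω : Type} [MeasurableSpace Ω] {μ : Measure Ω} {ξ : ℕ → Ω → ℕ} {p : ℕ}
    (h : (∀ᵐ w ∂μ, ξ p w ∈ Dest Z W p) ∧ ∀ m ∈ Dest Z W p, μ.real {w | ξ p w = m} = 1 / (Dest Z W p).ncard) :
    Pool.Agent.R526.LS.Law3 μ (ξ p) (Pool.Agent.R526.SP.Ph Z W p) := by
  have hD : Dest Z W p = (Pool.Agent.R526.SP.Ph Z W p : Set ℕ) := by
    ext m
    rw [Finset.mem_coe, Pool.Agent.R526.SP.mem_Ph]
    unfold Dest
    rw [Set.mem_ofPred_eq, and_assoc]
  have hc : (Dest Z W p).ncard = (Pool.Agent.R526.SP.Ph Z W p).card := by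
    rw [hD, Set.ncard_coe_finset]
  constructor
  · filter_upwards [h.1] with w hw
    rw [hD, Finset.mem_coe] at hw
    exact hw
  · intro m hm
    rw [h.2 m (by rw [hD]; exact hm), hc]

theorem log_two_sq : 2 < 1 / (Real.log 2) ^ 2 ∧ 1 / (Real.log 2) ^ 2 ≤ 22 / 10 := by
  have h1 := Real.log_two_gt_d9
  have h2 := Real.log_two_lt_d9
  have h3 : 0 < Real.log 2 := by linarith
  constructor
  · rw [lt_div_iff₀ (by positivity)]
    nlinarith
  · rw [div_le_iff₀ (by positivity)]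
    nlinarith

theorem logb_sq (n : ℕ) : (Real.logb 2 n) ^ 2 = 1 / (Real.log 2) ^ 2 * (Real.log n) ^ 2 := by
  unfold Real.logb
  ring

/-- There is a function `ω` satisfying the conditions of Buchstab's function such that:
(1) if `0 < β ≤ 1`, `A ≥ 1`, and `ξ p` are as in `Moved`, then almost surely for every `ε > 0` and all large `N` there is
`N < n ≤ 4 N` such that `𝒮` has no element in `(n², n² + (2 e^(-γ) / ω(2/β) - ε) (log n)²]`;
(2) if `β = 1` (for instance `Z p = ⌊log p⌋`), then almost surely for all large `N` there is `N < n ≤ 4 N` such that `𝒮` has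
no element in `(n², n² + (log₂ n)²]`;
(3) there is `β₀ > 0` such that for `0 < β ≤ β₀` almost surely for all large `n` the set `𝒮` has an element
in `(n², n² + (log₂ n)²]`. -/
theorem result : ∃ ω : ℝ → ℝ, IsBuchstab ω ∧
    (∀ (β : ℝ) (A : ℕ), 0 < β → β ≤ 1 → 1 ≤ A → ∀ (Z W : ℕ → ℕ)
      (Ω : Type) [MeasurableSpace Ω] (μ : Measure Ω) [IsProbabilityMeasure μ] (ξ : ℕ → Ω → ℕ),
        Moved β A Z W Ω μ ξ →
        ∀ᵐ w ∂μ, ∀ ε : ℝ, 0 < ε → ∀ᶠ N : ℕ in atTop, ∃ n : ℕ, N < n ∧ n ≤ 4 * N ∧ ∀ m ∈ S ξ w,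
          ¬ (n ^ 2 < m ∧ (m : ℝ) ≤ (n : ℝ) ^ 2 +
            (2 * Real.exp (-Real.eulerMascheroniConstant) / ω (2 / β) - ε) * (Real.log n) ^ 2)) ∧
    (∀ (A : ℕ), 1 ≤ A → ∀ (Z W : ℕ → ℕ)
      (Ω : Type) [MeasurableSpace Ω] (μ : Measure Ω) [IsProbabilityMeasure μ] (ξ : ℕ → Ω → ℕ),
        Moved 1 A Z W Ω μ ξ →
        ∀ᵐ w ∂μ, ∀ᶠ N : ℕ in atTop, ∃ n : ℕ, N < n ∧ n ≤ 4 * N ∧ ∀ m ∈ S ξ w,
          ¬ (n ^ 2 < m ∧ (m : ℝ) ≤ (n : ℝ) ^ 2 + (Real.logb 2 n) ^ 2)) ∧
    (∃ β₀ : ℝ, 0 < β₀ ∧ ∀ (β : ℝ) (A : ℕ), 0 < β → β ≤ β₀ → 1 ≤ A → ∀ (Z W : ℕ → ℕ)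
      (Ω : Type) [MeasurableSpace Ω] (μ : Measure Ω) [IsProbabilityMeasure μ] (ξ : ℕ → Ω → ℕ),
        Moved β A Z W Ω μ ξ →
        ∀ᵐ w ∂μ, ∀ᶠ n : ℕ in atTop, ∃ m ∈ S ξ w,
          n ^ 2 < m ∧ (m : ℝ) ≤ (n : ℝ) ^ 2 + (Real.logb 2 n) ^ 2) := by
  refine ⟨Pool.Agent.R529.BU.om, ⟨Pool.Agent.R529.BU.om_cont.continuousOn, Pool.Agent.R529.BU.om_one_two,
    Pool.Agent.R529.BU.om_two⟩, ?_, ?_, ?_⟩
  · intro β A hβ hβ1 hA Z W Ω _ μ _ ξ hM
    obtain ⟨hZ, hW, h1, h2, p₀, h3⟩ := hM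
    set C : ℝ := 2 * Real.exp (-Real.eulerMascheroniConstant) / Pool.Agent.R529.BU.om (2 / β) with hC
    have ho : 0 < Pool.Agent.R529.BU.om (2 / β) := by
      have := Pool.Agent.R529.BU.om_ge (2 / β) (by rw [le_div_iff₀ hβ]; linarith)
      linarith
    have h4 : ∀ᵐ w ∂μ, ∀ j : ℕ, 0 < C - 1 / ((j : ℝ) + 1) → ∀ᶠ N : ℕ in atTop, ∃ n : ℕ, N < n ∧ n ≤ 4 * N ∧
        ∀ p : ℕ, p.Prime → ¬ (n ^ 2 < ξ p w ∧ ξ p w ≤ n ^ 2 + ⌊(C - 1 / ((j : ℝ) + 1)) * (Real.log n) ^ 2⌋₊) := by
      rw [ae_all_iff]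
      intro j
      by_cases hj : 0 < C - 1 / ((j : ℝ) + 1)
      · have h5 := Pool.Agent.R526.LS.squares μ h1 h2 A hA Z W hW β hβ hβ1 hZ p₀
          (fun p hp hp0 => law (h3 p hp hp0)) (C - 1 / ((j : ℝ) + 1)) hj (by
            have h6 : Real.exp Real.eulerMascheroniConstant * Pool.Agent.R529.BU.om (2 / β) * C / 2 = 1 := by
              rw [hC, Real.exp_neg]
              field_simp
            have h7 : 0 < 1 / ((j : ℝ) + 1) := by positivity
            have h8 : 0 < Real.exp Real.eulerMascheroniConstant * Pool.Agent.R529.BU.om (2 / β) * (1 / ((j : ℝ) + 1)) / 2 := by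
              positivity
            calc Real.exp Real.eulerMascheroniConstant * Pool.Agent.R529.BU.om (2 / β) * (C - 1 / ((j : ℝ) + 1)) / 2 =
                  Real.exp Real.eulerMascheroniConstant * Pool.Agent.R529.BU.om (2 / β) * C / 2 -
                    Real.exp Real.eulerMascheroniConstant * Pool.Agent.R529.BU.om (2 / β) * (1 / ((j : ℝ) + 1)) / 2 := by ring
              _ < 1 := by linarith)
        filter_upwards [h5] with w hw _
        exact hw
      · filter_upwards with w hc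
        exact absurd hc hj
    filter_upwards [h4] with w hw ε hε
    obtain ⟨j, hj⟩ := exists_nat_one_div_lt hε
    by_cases hpos : 0 < C - 1 / ((j : ℝ) + 1)
    · filter_upwards [hw j hpos] with N hN
      obtain ⟨n, hn1, hn2, hn3⟩ := hN
      refine ⟨n, hn1, hn2, ?_⟩
      rintro m ⟨p, hp, rfl⟩ ⟨h5, h6⟩
      apply hn3 p hp
      refine ⟨h5, ?_⟩
      have h7 : ξ p w - n ^ 2 ≤ ⌊(C - 1 / ((j : ℝ) + 1)) * (Real.log n) ^ 2⌋₊ := by
        apply Nat.le_floor
        rw [Nat.cast_sub h5.le]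
        push_cast
        have h8 : (C - ε) * (Real.log n) ^ 2 ≤ (C - 1 / ((j : ℝ) + 1)) * (Real.log n) ^ 2 :=
          mul_le_mul_of_nonneg_right (by linarith) (sq_nonneg _)
        linarith
      omega
    · filter_upwards [eventually_ge_atTop 1] with N hN
      refine ⟨N + 1, by omega, by omega, ?_⟩
      rintro m _ ⟨h5, h6⟩
      have h7 : (C - ε) * (Real.log ((N + 1 : ℕ) : ℝ)) ^ 2 ≤ 0 :=
        mul_nonpos_of_nonpos_of_nonneg (by linarith) (sq_nonneg _)
      have h8 : (((N + 1) ^ 2 : ℕ) : ℝ) < m := by exact_mod_cast h5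
      push_cast at h8 h7 h6
      linarith
  · intro A hA Z W Ω _ μ _ ξ hM
    obtain ⟨hZ, hW, h1, h2, p₀, h3⟩ := hM
    have ho : Pool.Agent.R529.BU.om 2 = 1 / 2 := by
      have := Pool.Agent.R529.BU.om_one_two 2 (by norm_num) le_rfl
      linarith
    have h5 := Pool.Agent.R526.LS.squares μ h1 h2 A hA Z W hW 1 one_pos le_rfl hZ p₀
      (fun p hp hp0 => law (h3 p hp hp0)) (22 / 10) (by norm_num) (by
        have h6 : (2 : ℝ) / 1 = 2 := by norm_num
        rw [h6, ho]
        have h7 : (0.559 : ℝ) < Real.exp (-Real.eulerMascheroniConstant) := by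
          refine Pool.Agent.R526.TP.exp_low.trans ?_
          exact Real.exp_lt_exp.2 (by have := Pool.Agent.R526.TP.gamma_lt; linarith)
        have h8 : Real.exp Real.eulerMascheroniConstant * Real.exp (-Real.eulerMascheroniConstant) = 1 := by
          rw [← Real.exp_add, add_neg_cancel, Real.exp_zero]
        have h9 := Real.exp_pos Real.eulerMascheroniConstant
        nlinarith)
    filter_upwards [h5] with w hw
    filter_upwards [hw] with N hN
    obtain ⟨n, hn1, hn2, hn3⟩ := hN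
    refine ⟨n, hn1, hn2, ?_⟩
    rintro m ⟨p, hp, rfl⟩ ⟨h5, h6⟩
    apply hn3 p hp
    refine ⟨h5, ?_⟩
    have h7 : ξ p w - n ^ 2 ≤ ⌊(22 / 10 : ℝ) * (Real.log n) ^ 2⌋₊ := by
      apply Nat.le_floor
      rw [Nat.cast_sub h5.le]
      push_cast
      rw [logb_sq] at h6
      have h8 : 1 / (Real.log 2) ^ 2 * (Real.log n) ^ 2 ≤ 22 / 10 * (Real.log n) ^ 2 :=
        mul_le_mul_of_nonneg_right log_two_sq.2 (sq_nonneg _)
      linarith
    omega
  · obtain ⟨β₀, hβ₀, h⟩ := Pool.Agent.R526.LS.small (1 / (Real.log 2) ^ 2) log_two_sq.1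
    refine ⟨β₀, hβ₀, ?_⟩
    intro β A hβ hβ1 hA Z W Ω _ μ _ ξ hM
    obtain ⟨hZ, hW, h1, h2, p₀, h3⟩ := hM
    filter_upwards [h Ω μ ξ h1 h2 A hA Z W hW β hβ hβ1 hZ p₀
      (fun p hp hp0 => law (h3 p hp hp0))] with w hw
    filter_upwards [hw] with n hn
    obtain ⟨p, hp, h4, h5⟩ := hn
    refine ⟨ξ p w, ⟨p, hp, rfl⟩, h4, ?_⟩
    rw [logb_sq]
    have h6 : (⌊1 / (Real.log 2) ^ 2 * (Real.log n) ^ 2⌋₊ : ℝ) ≤ 1 / (Real.log 2) ^ 2 * (Real.log n) ^ 2 :=
      Nat.floor_le (by positivity)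
    have h7 : (ξ p w : ℝ) ≤ ((n ^ 2 + ⌊1 / (Real.log 2) ^ 2 * (Real.log n) ^ 2⌋₊ : ℕ) : ℝ) := by exact_mod_cast h5
    push_cast at h7
    linarith

end Pool.Agent.Results.MP_73869e_nt.SquaresAndMovedPrimes
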