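import Mathlib
import Pool.Agent.R528.RM.Sp3

set_option autoImplicit false

/-!
# Members just after the squares in random models of the primes

The question is whether every interval `(n², n² + (log₂ n)²]` with `n` large contains a prime.  Its
length is only slightly larger than the critical length `2 (log n)²` predicted by random models:
`1 / (log 2)² = 2.0813...`.  We determine, in EVERY sequential random model of the primes, the exact
extreme orders of the number `N(n)` of members in `(n², n² + c (log n)²]`, for every `c > 0`.  In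
these models the integers are decided one after the other, only integers coprime to a fixed `Q` can
be chosen, and the conditional probability of choosing `n + 1` (coprime to `Q`) given the past is
asymptotic to `(Q / φ(Q)) / log n`; no independence is assumed (for `Q = 1` Cramér's model and the
Hawkins random sieve are examples).  Almost surely

* `limsup N(n) / log n = a c / 2`, where `a > 1` solves `(c / 2) (a log a - a + 1) = 1`;
* `liminf N(n) / log n = b c / 2`, where `b = 0` if `c ≤ 2`, and `0 < b < 1` solves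
  `(c / 2) (b log b - b + 1) = 1` if `c > 2`.

In particular the intervals of the question, `c = 1 / (log 2)²`, contain at least `κ log n` members
for all large `n`, with an explicit best possible `κ > 0`; for `c < 2` infinitely many intervals
contain fewer than `ε log n` members.
-/

open MeasureTheory Filter
open scoped Topology

namespace Pool.Agent.Results.MP_73869e_nt.SquaresInSievedModels

/-- the number of members of `S` in the interval `(n², n² + y]` -/
noncomputable def afterSquare (S : Set ℕ) (n : ℕ) (y : ℝ) : ℕ :=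
  Set.ncard {a : ℕ | a ∈ S ∧ n ^ 2 < a ∧ (a : ℝ) ≤ (n : ℝ) ^ 2 + y}

open Pool.Agent.R528.RM

lemma afterSquare_eq {Ω : Type} {A : ℕ → Set Ω} (ω : Ω) (n : ℕ) {y : ℝ} (hy : 0 ≤ y) :
    afterSquare {k | ω ∈ A k} n y = cnt A (n ^ 2) ⌊y⌋₊ ω := by
  rw [cnt_eq_ncard]
  unfold afterSquare
  congr 1
  ext a
  simp only [Set.mem_ofPred_eq]
  refine and_congr_right fun _ => and_congr_right fun hx => ?_
  obtain ⟨b, rfl⟩ : ∃ b, a = n ^ 2 + b := ⟨a - n ^ 2, by omega⟩
  push_cast
  rw [add_le_add_iff_left, add_le_add_iff_left, Nat.le_floor_iff hy]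

lemma spar_sq {c : ℝ} (hc : 0 < c) : Spar (fun j => j ^ 2) (fun j => ⌊c * Real.log j ^ 2⌋₊) (c / 2) := by
  have hlog2 : ∀ j : ℕ, Real.log ((j ^ 2 : ℕ) : ℝ) = 2 * Real.log j := fun j => by
    push_cast
    rw [Real.log_pow]
    norm_num
  have hsmall : ∀ᶠ j : ℕ in atTop, c * Real.log j ^ 2 ≤ j := by
    have h3 := (Real.isLittleO_pow_log_id_atTop (n := 2)).def (show (0 : ℝ) < 1 / c by positivity)
    have h4 : ∀ᶠ x : ℝ in atTop, c * Real.log x ^ 2 ≤ x := by
      filter_upwards [h3, eventually_ge_atTop 1] with x h3 h6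
      rw [Real.norm_of_nonneg (by positivity), id, Real.norm_of_nonneg (by linarith)] at h3
      calc c * Real.log x ^ 2 ≤ c * (1 / c * x) := mul_le_mul_of_nonneg_left h3 hc.le
        _ = x := by field_simp
    exact tendsto_natCast_atTop_atTop.eventually h4
  have hsmall' : ∀ᶠ j : ℕ in atTop, ⌊c * Real.log j ^ 2⌋₊ ≤ j := by
    filter_upwards [hsmall] with j hj
    have := Nat.floor_mono hj
    rwa [Nat.floor_natCast] at this
  have hbig : Tendsto (fun j : ℕ => Real.log ((j ^ 2 : ℕ) : ℝ)) atTop atTop := by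
    refine (tendsto_log.const_mul_atTop (show (0 : ℝ) < 2 by norm_num)).congr fun j => ?_
    rw [hlog2]
  refine ⟨?_, hbig, ?_, ?_⟩
  · filter_upwards [hsmall'] with j hj
    nlinarith
  · apply ratio_of_le (T := fun j => j ^ 2) hbig
    filter_upwards [hsmall', eventually_ge_atTop 1] with j hj h1
    nlinarith
  · have h1 : Tendsto (fun j : ℕ => ((⌊c * Real.log j ^ 2⌋₊ : ℕ) : ℝ) / Real.log j ^ 2) atTop (𝓝 c) :=
      (tendsto_nat_floor_mul_div_atTop hc.le).comp ((tendsto_pow_atTop (n := 2) two_ne_zero).comp tendsto_log)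
    have h2 := h1.div_const 2
    refine h2.congr' ?_
    filter_upwards [tendsto_log.eventually_gt_atTop 0] with j hj
    rw [hlog2]
    have := hj.ne'
    field_simp

end Pool.Agent.Results.MP_73869e_nt.SquaresInSievedModels

open Pool.Agent.Results.MP_73869e_nt.SquaresInSievedModels

/-- Let `A n` be the event that `n` belongs to a random set adapted to a filtration `ℱ`, let
`Q ≥ 1`, let no integer which is not coprime to `Q` be chosen, and let the conditional probability of
`A (n + 1)` given `ℱ n`, times `log n`, tend to `Q / φ(Q)` along the `n` with `n + 1` coprime to `Q`,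
almost surely.  First: let `c > 0`, let `a > 1` satisfy `(c / 2) (a log a - a + 1) = 1`, and let
`b < 1` be `0` if `c ≤ 2`, or satisfy `0 < b` and `(c / 2) (b log b - b + 1) = 1`.  Then almost
surely the number of members in `(n², n² + c (log n)²]`, divided by `(c / 2) log n`, has upper limit
`a` and lower limit `b`.  Second: there is a constant `κ > 0` such that almost surely, for all large
`n`, the interval `(n², n² + (log₂ n)²]` contains more than `κ log n` members. -/
theorem Pool.Agent.Results.MP_73869e_nt.SquaresInSievedModels.result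
    {Ω : Type} [mΩ : MeasurableSpace Ω] (μ : Measure Ω) [IsProbabilityMeasure μ]
    (ℱ : Filtration ℕ mΩ) (A : ℕ → Set Ω) (hA : ∀ n, MeasurableSet[ℱ n] (A n))
    (Q : ℕ) (hQ : 0 < Q) (hcop : ∀ n, ¬ Nat.Coprime n Q → A n = ∅)
    (hd : ∀ᵐ ω ∂μ, Tendsto (fun n : ℕ =>
      (μ[(A (n + 1)).indicator (fun _ => (1 : ℝ)) | ℱ n]) ω * Real.log n)
      (atTop ⊓ 𝓟 {n : ℕ | Nat.Coprime (n + 1) Q}) (𝓝 ((Q : ℝ) / Nat.totient Q))) :
    (∀ c a b : ℝ, 0 < c → 1 < a → c / 2 * (a * Real.log a - a + 1) = 1 → b < 1 →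
      ((c ≤ 2 ∧ b = 0) ∨ (0 < b ∧ c / 2 * (b * Real.log b - b + 1) = 1)) →
      ∀ᵐ ω ∂μ, ∀ ε : ℝ, 0 < ε →
        (∀ᶠ n : ℕ in atTop, (afterSquare {k | ω ∈ A k} n (c * Real.log n ^ 2) : ℝ) <
          (a + ε) * (c / 2) * Real.log n) ∧
        (∃ᶠ n : ℕ in atTop, (a - ε) * (c / 2) * Real.log n <
          afterSquare {k | ω ∈ A k} n (c * Real.log n ^ 2)) ∧
        (∀ᶠ n : ℕ in atTop, (b - ε) * (c / 2) * Real.log n <
          afterSquare {k | ω ∈ A k} n (c * Real.log n ^ 2)) ∧
        (∃ᶠ n : ℕ in atTop, (afterSquare {k | ω ∈ A k} n (c * Real.log n ^ 2) : ℝ) <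
          (b + ε) * (c / 2) * Real.log n)) ∧
    (∃ κ : ℝ, 0 < κ ∧ ∀ᵐ ω ∂μ, ∀ᶠ n : ℕ in atTop,
      κ * Real.log n < afterSquare {k | ω ∈ A k} n (Real.logb 2 n ^ 2)) := by
  have hprof := Pool.Agent.R528.RM.dens_profile (μ := μ) (ℱ := ℱ) hA Q hQ hcop hd
  have main : ∀ c a b : ℝ, 0 < c → 1 < a → c / 2 * (a * Real.log a - a + 1) = 1 → b < 1 →
      ((c ≤ 2 ∧ b = 0) ∨ (0 < b ∧ c / 2 * (b * Real.log b - b + 1) = 1)) →
      ∀ᵐ ω ∂μ, ∀ ε : ℝ, 0 < ε →
        (∀ᶠ n : ℕ in atTop, (afterSquare {k | ω ∈ A k} n (c * Real.log n ^ 2) : ℝ) <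
          (a + ε) * (c / 2) * Real.log n) ∧
        (∃ᶠ n : ℕ in atTop, (a - ε) * (c / 2) * Real.log n <
          afterSquare {k | ω ∈ A k} n (c * Real.log n ^ 2)) ∧
        (∀ᶠ n : ℕ in atTop, (b - ε) * (c / 2) * Real.log n <
          afterSquare {k | ω ∈ A k} n (c * Real.log n ^ 2)) ∧
        (∃ᶠ n : ℕ in atTop, (afterSquare {k | ω ∈ A k} n (c * Real.log n ^ 2) : ℝ) <
          (b + ε) * (c / 2) * Real.log n) := by
    intro c a b hc ha hIa hb1 hb
    have hb0 : 0 ≤ b := by
      rcases hb with h | h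
      · exact h.2.ge
      · exact h.1.le
    have hb' : (c / 2 ≤ 1 ∧ b = 0) ∨ (0 < b ∧ c / 2 * Pool.Agent.R528.RM.II b = 1) := by
      rcases hb with h | h
      · exact Or.inl ⟨by linarith [h.1], h.2⟩
      · exact Or.inr h
    filter_upwards [Pool.Agent.R528.RM.spar_final (μ := μ) (ℱ := ℱ) hA hQ hprof (spar_sq hc) (show 0 < c / 2 by positivity)
      ha hIa hb0 hb1 hb'] with ω hω
    have e : ∀ n : ℕ, afterSquare {k | ω ∈ A k} n (c * Real.log n ^ 2) =
        Pool.Agent.R528.RM.cnt A (n ^ 2) ⌊c * Real.log n ^ 2⌋₊ ω := fun n => afterSquare_eq ω n (by positivity)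
    simp_rw [e]
    exact hω
  refine ⟨main, ?_⟩
  have hl2 : 0 < Real.log 2 := Real.log_pos (by norm_num)
  set c : ℝ := 1 / Real.log 2 ^ 2 with hc
  have hc2 : 2 < c := by
    rw [hc, lt_div_iff₀ (by positivity)]
    have h1 := Real.log_two_lt_d9
    have h2 : Real.log 2 ^ 2 < 0.6931471808 ^ 2 := pow_lt_pow_left₀ h1 hl2.le two_ne_zero
    have h3 : (0.6931471808 : ℝ) ^ 2 < 1 / 2 := by norm_num
    linarith
  obtain ⟨a, b, ha, hIa, hb0, hb1, hIb⟩ := Pool.Agent.R528.RM.II_roots (show 1 < c / 2 by linarith)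
  refine ⟨b / 2 * (c / 2), by positivity, ?_⟩
  filter_upwards [main c a b (by linarith) ha hIa hb1 (Or.inr ⟨hb0, hIb⟩)] with ω hω
  filter_upwards [(hω (b / 2) (by linarith)).2.2.1] with n hn
  have e : Real.logb 2 n ^ 2 = c * Real.log n ^ 2 := by
    rw [Real.logb, hc]
    field_simp
  rw [e]
  refine lt_of_le_of_lt (le_of_eq ?_) hn
  ring
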