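import Pool.Agent.R948.NSa

/-!
# MP_73869e_nt: the primes just above `n²` cannot always be of the form `n² + b²`

The question asks for a prime in `(n², n² + (log₂ n)²]`. This interval contains the numbers
`n² + b²` with `1 ≤ b ≤ log₂ n`.

1. For a constant `c > 0`, for all large `Y`, for all `M ≥ Y` and all `H, K ≥ 1` with
   `H K ≤ c log Y log log Y` there is an `n` in `(M, M + Y]` such that all the numbers `m² + b²` with
   `|m - n| ≤ H` and `1 ≤ b ≤ K` are composite (with a prime factor at most `Y ^ (1/10)`).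
2. So for every `0 < δ ≤ 1` every interval `(M, M + M ^ δ]`, `M` large, contains an `n` such that for
   all `m` with `|m - n| ≤ c δ log log n` no number `m² + b²`, `1 ≤ b ≤ log₂ m`, is prime: none of
   the intervals `(m², m² + (log₂ m)²]` of the question contains a prime of the form `m² + b²`.

The proof is the theorem `rectangles` of `Pool/Agent/H618R2/GR/Main.lean` (starting files,
helper618): rectangles without Gaussian primes, by the Erdős–Rankin method for `X² + 1`.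
-/

set_option autoImplicit false

namespace Pool.Agent.Results.MP_73869e_nt.SquaresPlusSquares

theorem result :
    (∃ c : ℝ, 0 < c ∧ ∃ Y₀ : ℝ, ∀ Y : ℝ, Y₀ ≤ Y → ∀ M : ℕ, Y ≤ M → ∀ H K : ℕ, 1 ≤ H → 1 ≤ K →
      (H : ℝ) * K ≤ c * Real.log Y * Real.log (Real.log Y) →
      ∃ n : ℕ, M < n ∧ (n : ℝ) ≤ M + Y ∧ ∀ m : ℕ, |(m : ℤ) - n| ≤ H → ∀ b : ℕ, 1 ≤ b → b ≤ K →
        ∃ p : ℕ, p.Prime ∧ (p : ℝ) ≤ Y ^ (1 / 10 : ℝ) ∧ p ∣ m ^ 2 + b ^ 2 ∧ p < m ^ 2 + b ^ 2) ∧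
    (∃ c : ℝ, 0 < c ∧ ∀ δ : ℝ, 0 < δ → δ ≤ 1 → ∃ M₀ : ℕ, ∀ M : ℕ, M₀ ≤ M →
      ∃ n : ℕ, M < n ∧ (n : ℝ) ≤ M + (M : ℝ) ^ δ ∧
        ∀ m : ℕ, |(m : ℝ) - n| ≤ c * δ * Real.log (Real.log n) →
          ∀ b : ℕ, 1 ≤ b → (b : ℝ) ≤ Real.log m / Real.log 2 → ¬ (m ^ 2 + b ^ 2).Prime) :=
  ⟨Pool.Agent.R948.NS.rectangles_nat, Pool.Agent.R948.NS.runs⟩

end Pool.Agent.Results.MP_73869e_nt.SquaresPlusSquares
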